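import Pool.Agent.H5.EF.Stm

open Set Filter Topology H5.EF

namespace H17.EF

theorem ff_deriv (p : ℝ) (hp : 1 < p) (x : ℝ) : HasDerivAt (ff p) (p * |x| ^ (p - 1)) x := by
  rcases lt_trichotomy x 0 with hx | hx | hx
  · have h1 : HasDerivAt (fun y : ℝ => -(-y) ^ p) (p * |x| ^ (p - 1)) x := by
      have h2 : HasDerivAt (fun y : ℝ => -y) (-1) x := (hasDerivAt_id x).neg
      have h3 := (h2.rpow_const (p := p) (Or.inl (by linarith : -x ≠ 0))).neg
      refine h3.congr_deriv ?_
      rw [abs_of_neg hx]; ring
    refine h1.congr_of_eventuallyEq ?_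
    filter_upwards [Iio_mem_nhds hx] with y hy
    have hy' : (0 : ℝ) < -y := by simpa using hy
    have hy0 : y ≠ 0 := by
      intro h
      rw [h] at hy'
      simp at hy'
    unfold ff
    rw [abs_of_neg hy, Real.rpow_sub_one hy'.ne']
    field_simp
  · subst hx
    have h0 : p * |(0 : ℝ)| ^ (p - 1) = 0 := by
      rw [abs_zero, Real.zero_rpow (by linarith), mul_zero]
    rw [h0, hasDerivAt_iff_tendsto_slope]
    have h1 : Tendsto (fun y : ℝ => |y| ^ (p - 1)) (𝓝[≠] 0) (𝓝 0) := by
      have h2 : ContinuousAt (fun y : ℝ => |y| ^ (p - 1)) 0 :=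
        (continuous_abs.continuousAt).rpow_const (Or.inr (by linarith))
      have h3 := h2.tendsto
      simp only [abs_zero] at h3
      rw [Real.zero_rpow (by linarith)] at h3
      exact h3.mono_left nhdsWithin_le_nhds
    refine h1.congr' ?_
    filter_upwards [self_mem_nhdsWithin] with y hy
    have hy' : y ≠ 0 := hy
    rw [slope_def_field]
    unfold ff
    simp only [mul_zero, sub_zero]
    field_simp
  · have h1 : HasDerivAt (fun y : ℝ => y ^ p) (p * |x| ^ (p - 1)) x := by
      have h3 := Real.hasDerivAt_rpow_const (p := p) (Or.inl hx.ne')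
      rw [abs_of_pos hx]; exact h3
    refine h1.congr_of_eventuallyEq ?_
    filter_upwards [Ioi_mem_nhds hx] with y hy
    have hy' : (0 : ℝ) < y := hy
    unfold ff
    rw [abs_of_pos hy', Real.rpow_sub_one hy'.ne']
    field_simp

theorem t_FD : S_FD := by
  intro p hp
  refine ⟨ff_deriv p hp, ?_, ?_⟩
  · intro x
    have h := hasDerivAt_abs_rpow x (p := p + 1) (by linarith)
    refine h.congr_deriv ?_
    unfold ff
    rw [show p + 1 - 2 = p - 1 by ring]
    ring
  · intro M x y hx hy
    have hM : 0 ≤ M := (abs_nonneg x).trans hx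
    have hconv : Convex ℝ (Icc (-M) M) := convex_Icc _ _
    have h1 := hconv.norm_image_sub_le_of_norm_hasDerivWithin_le (f := ff p)
      (f' := fun z => p * |z| ^ (p - 1)) (C := p * M ^ (p - 1)) (x := y) (y := x)
      (fun z _ => (ff_deriv p hp z).hasDerivWithinAt)
      (by
        intro z hz
        have hz' : |z| ≤ M := abs_le.mpr hz
        rw [Real.norm_eq_abs, abs_of_nonneg (by positivity)]
        exact mul_le_mul_of_nonneg_left
          (Real.rpow_le_rpow (abs_nonneg _) hz' (by linarith)) (by linarith))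
      (abs_le.mp hy) (abs_le.mp hx)
    simpa [Real.norm_eq_abs] using h1

end H17.EF
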